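import Pool.Agent.Y718.CL.Stm
import Pool.Agent.Y718.Exc2

/-!
# Project CL (helper718): finiteness of the exceptional sets over the complex numbers
-/

set_option autoImplicit false
set_option linter.unusedSectionVars false

open MvPolynomial Pool.Agent.Y718 Pool.Agent.Y718.SF Pool.Agent.Y718.CL

namespace Pool.Agent.Y944.CL

theorem eval_dd {κ : Type} [Fintype κ] (x v : κ → ℂ) (P : MvPolynomial κ ℂ) :
    eval x (dd v P) = ∑ i, eval x (pderiv i P) * v i := by
  classical
  induction P using MvPolynomial.induction_on with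
  | C c => simp [dd_C]
  | add p q hp hq => simp only [map_add, hp, hq, add_mul, Finset.sum_add_distrib]
  | mul_X p j hp =>
    rw [dd_mul_X, map_add, map_mul, map_mul, eval_C, eval_X, hp]
    have h : ∀ i, eval x (pderiv i (p * X j)) * v i =
        (if j = i then eval x p * v j else 0) + eval x (pderiv i p) * v i * x j := by
      intro i
      rw [Derivation.leibniz, pderiv_X, smul_eq_mul, smul_eq_mul, map_add, map_mul, map_mul,
        eval_X]
      by_cases hij : j = i
      · subst hij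
        simp
        ring
      · have : (Pi.single i 1 : κ → MvPolynomial κ ℂ) j = 0 := by
          simp [Pi.single_apply, hij]
        rw [this, if_neg hij]
        simp
        ring
    simp only [h, Finset.sum_add_distrib, Finset.sum_ite_eq, Finset.mem_univ, if_true,
      Finset.sum_mul]

theorem poly_deriv {κ : Type} [Fintype κ] (x v : κ → ℂ) (P : MvPolynomial κ ℂ) :
    HasDerivAt (fun t : ℂ => eval (x + t • v) P) (∑ i, eval x (pderiv i P) * v i) 0 := by
  rw [← eval_dd]
  exact eval_deriv P x v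

variable {n : ℕ}

lemma PKc_coeff {κ : Type} (G : MvPolynomial (Fin (n + 1)) ℂ) (p : Fin (n + 1))
    (U : Fin (n + 1) → ℂ) (φ : Fin n → (κ → ℂ) → ℂ) (hφ : ∀ j, PK (φ j)) (k : ℕ) :
    PK (fun w : κ → ℂ => (lg G (ic p 1 (fun j => φ j w)) U).coeff k) := by
  have := (PKz_coeff G U k).comp (φ := fun (i : Fin (n + 1)) (w : κ → ℂ) => ic p 1 (fun j => φ j w) i)
    (fun i => PK_ic p hφ i)
  exact this

lemma PKc_gB {κ : Type} (G : MvPolynomial (Fin (n + 1)) ℂ) (p : Fin (n + 1))
    (U : Fin (n + 1) → ℂ) (φ : Fin n → (κ → ℂ) → ℂ) (hφ : ∀ j, PK (φ j)) :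
    PK (fun w : κ → ℂ => gB (lg G (ic p 1 (fun j => φ j w)) U)) := by
  have h := PKc_coeff G p U φ hφ
  exact (((h 1).pow 3).sub ((((PK.const 4).mul (h 0)).mul (h 1)).mul (h 2))).add
    (((PK.const 8).mul ((h 0).pow 2)).mul (h 3))

lemma PKc_gT {κ : Type} (G : MvPolynomial (Fin (n + 1)) ℂ) (p : Fin (n + 1))
    (U : Fin (n + 1) → ℂ) (φ : Fin n → (κ → ℂ) → ℂ) (hφ : ∀ j, PK (φ j)) :
    PK (fun w : κ → ℂ => gT (lg G (ic p 1 (fun j => φ j w)) U)) := by
  have h := PKc_coeff G p U φ hφ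
  exact ((((h 1).pow 2).sub (((PK.const 4).mul (h 0)).mul (h 2))).pow 2).sub
    (((PK.const 64).mul ((h 0).pow 3)).mul (h 4))

lemma PKc_e {κ : Type} (G : MvPolynomial (Fin (n + 1)) ℂ) (p : Fin (n + 1))
    (φ : Fin n → (κ → ℂ) → ℂ) (hφ : ∀ j, PK (φ j)) :
    PK (fun w : κ → ℂ => eval (ic p 1 (fun j => φ j w)) G) := by
  have h : PK (fun Z : Fin (n + 1) → ℂ => eval Z G) := ⟨G, fun _ => rfl⟩
  exact h.comp (φ := fun (i : Fin (n + 1)) (w : κ → ℂ) => ic p 1 (fun j => φ j w) i)
    (fun i => PK_ic p hφ i)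

theorem ex0 : S_LOC → S_EX0 := by
  intro hL n F hF hsm p
  set S : Set (MvPolynomial (Fin n) ℂ) :=
    {P | ∃ U : Fin (n + 1) → ℂ, ∀ z, gB (lg F (ic p 1 z) U) = eval z P} with hS
  set G : Set (MvPolynomial (Fin n) ℂ) := {P | ∀ z, eval (ic p 1 z) F = eval z P} with hG
  have hSU : ∀ U : Fin (n + 1) → ℂ, ∃ P ∈ S, ∀ z, gB (lg F (ic p 1 z) U) = eval z P := fun U => by
    obtain ⟨P, hP⟩ := PKc_gB F p U (fun j z => z j) fun j => PK.coord j
    exact ⟨P, ⟨U, hP⟩, hP⟩
  have hset : E0 F p = {x | (∀ P ∈ S, eval x P = 0) ∧ ∃ g ∈ G, eval x g ≠ 0} := by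
    ext z
    constructor
    · rintro ⟨he, hB⟩
      refine ⟨?_, ?_⟩
      · rintro P ⟨U, hP⟩
        rw [← hP, hB]
      · obtain ⟨g, hg⟩ := PKc_e F p (fun j z => z j) fun j => PK.coord j
        exact ⟨g, hg, by rw [← hg]; exact he⟩
    · rintro ⟨h1, g, hg, hgz⟩
      refine ⟨by rw [hg]; exact hgz, fun U => ?_⟩
      obtain ⟨P, hPS, hP⟩ := hSU U
      rw [hP]
      exact h1 P hPS
  rw [hset]
  refine hL (Fin n) S G ?_
  intro x hx ⟨g, hg, hgx⟩ v hv
  by_contra hv0
  have he : eval (ic p 1 x) F ≠ 0 := by rw [hg]; exact hgx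
  have hB : ∀ U, gB (lg F (ic p 1 x) U) = 0 := fun U => by
    obtain ⟨P, hPS, hP⟩ := hSU U
    rw [hP]
    exact hx P hPS
  have hpz : ∀ U, pz F (ic p 1 x) U (ic p 0 v) = 0 := by
    intro U
    obtain ⟨P, hPS, hP⟩ := hSU U
    have h1 := poly_deriv x v P
    rw [hv P hPS] at h1
    have h2 := gB_derivZ F (ic p 1 x) U (ic p 0 v)
    simp only [ic_add, hP] at h2
    exact h2.unique h1
  exact case_one hF hsm he hB hpz fun l => ic_out p hv0 l

theorem ex1 : S_LOC → S_EX1 := by
  intro hL n F hF hsm hn p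
  rcases Nat.lt_or_ge 2 n with h3 | h3
  · -- the set is empty
    have : E1 F p = ∅ := by
      ext w
      simp only [Set.mem_empty_iff_false, iff_false]
      rintro ⟨he, -, hT⟩
      refine no_linear_four hF hsm (by omega) he (lin fun i => w (Sum.inr i)) fun U => ?_
      rw [lin_apply]
      exact hT U
    rw [this]
    exact Set.finite_empty
  obtain rfl : n = 2 := by omega
  set κ : Type := Fin 2 ⊕ Fin 3
  have c1 : ∀ j : Fin 2, PK (fun w : κ → ℂ => w (Sum.inl j)) := fun j => PK.coord _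
  set S : Set (MvPolynomial κ ℂ) :=
    {P | ∃ U : Fin 3 → ℂ, ∀ w : κ → ℂ, gT (lg F (ic p 1 (fun j => w (Sum.inl j))) U) -
      (∑ i, w (Sum.inr i) * U i) * gB (lg F (ic p 1 (fun j => w (Sum.inl j))) U) = eval w P} with hS
  set G : Set (MvPolynomial κ ℂ) := {P | ∃ U : Fin 3 → ℂ, ∀ w : κ → ℂ,
    eval (ic p 1 (fun j => w (Sum.inl j))) F * gB (lg F (ic p 1 (fun j => w (Sum.inl j))) U) =
      eval w P} with hG
  have hSU : ∀ U : Fin 3 → ℂ, ∃ P ∈ S, ∀ w : κ → ℂ,
      gT (lg F (ic p 1 (fun j => w (Sum.inl j))) U) -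
      (∑ i, w (Sum.inr i) * U i) * gB (lg F (ic p 1 (fun j => w (Sum.inl j))) U) = eval w P := by
    intro U
    obtain ⟨P, hP⟩ := (PKc_gT F p U (fun j (w : κ → ℂ) => w (Sum.inl j)) c1).sub
      ((PK.sum Finset.univ fun (i : Fin 3) _ => (PK.coord (Sum.inr i)).mul (PK.const (U i))).mul
      (PKc_gB F p U (fun j (w : κ → ℂ) => w (Sum.inl j)) c1))
    exact ⟨P, ⟨U, hP⟩, hP⟩
  have hset : E1 F p = {x | (∀ P ∈ S, eval x P = 0) ∧ ∃ g ∈ G, eval x g ≠ 0} := by
    ext w
    constructor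
    · rintro ⟨he, ⟨U1, hU1⟩, hT⟩
      refine ⟨?_, ?_⟩
      · rintro P ⟨U, hP⟩
        rw [← hP, hT U]
        ring
      · obtain ⟨g, hg⟩ := (PKc_e F p (fun j (w : κ → ℂ) => w (Sum.inl j)) c1).mul
          (PKc_gB F p U1 (fun j (w : κ → ℂ) => w (Sum.inl j)) c1)
        exact ⟨g, ⟨U1, hg⟩, by rw [← hg]; exact mul_ne_zero he hU1⟩
    · rintro ⟨h1, g, ⟨U1, hg⟩, hgw⟩
      rw [← hg] at hgw
      refine ⟨left_ne_zero_of_mul hgw, ⟨U1, right_ne_zero_of_mul hgw⟩, fun U => ?_⟩
      obtain ⟨P, hPS, hP⟩ := hSU U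
      have := h1 P hPS
      rw [← hP] at this
      exact sub_eq_zero.mp this
  rw [hset]
  refine hL κ S G ?_
  intro w hw hgw v hv
  have hwm : w ∈ E1 F p := by rw [hset]; exact ⟨hw, hgw⟩
  obtain ⟨he, ⟨U1, hU1⟩, hT⟩ := hwm
  by_contra hv0
  set Z : Fin 3 → ℂ := ic p 1 (fun j => w (Sum.inl j)) with hZ
  set H : Fin 3 → ℂ := ic p 0 (fun j => v (Sum.inl j)) with hH
  set l : Fin 3 → ℂ := fun i => w (Sum.inr i) with hl
  set m : Fin 3 → ℂ := fun i => v (Sum.inr i) with hm
  have hrel : ∀ U : Fin 3 → ℂ, zt F Z U H =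
      (∑ i, m i * U i) * gB (lg F Z U) + (∑ i, l i * U i) * pz F Z U H := by
    intro U
    obtain ⟨P, hPS, hP⟩ := hSU U
    have h1 := poly_deriv w v P
    rw [hv P hPS] at h1
    have h2 := gT_derivZ F Z U H
    have h3 := gB_derivZ F Z U H
    have h4 : HasDerivAt (fun t : ℂ => ∑ i, (l i + t * m i) * U i) (∑ i, m i * U i) 0 := by
      refine HasDerivAt.fun_sum fun i _ => ?_
      have := (((hasDerivAt_id (0 : ℂ)).mul_const (m i)).const_add (l i)).mul_const (U i)
      simpa using this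
    have h5 := h2.sub (h4.mul h3)
    have h6 : (fun t : ℂ => eval (w + t • v) P) =
      (fun t : ℂ => gT (lg F (Z + t • H) U)) -
        (fun t : ℂ => ∑ i, (l i + t * m i) * U i) * fun t : ℂ => gB (lg F (Z + t • H) U) := by
      funext t
      rw [← hP]
      simp only [Pi.sub_apply, Pi.mul_apply]
      have e : ic p 1 (fun j => (w + t • v) (Sum.inl j)) = Z + t • H := by
        rw [hZ, hH, ic_add]
        rfl
      rw [e]
      rfl
    rw [h6] at h1
    have h7 := h5.unique h1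
    simp only [zero_mul, add_zero, zero_smul] at h7
    linear_combination h7
  -- the direction is not vertical
  have hvz : (fun j => v (Sum.inl j)) ≠ 0 := by
    intro h0
    have hH0 : H = 0 := by
      rw [hH, h0]
      apply ic_ext p
      · simp [ic_same]
      · intro j; simp [ic_above]
    have hdd : dd (0 : Fin 3 → ℂ) F = 0 := by
      have := dd_lin (0 : ℂ) 0 (0 : Fin 3 → ℂ) 0 F
      simpa using this
    have hprod : ∀ U : Fin 3 → ℂ, (∑ i, m i * U i) * gB (lg F Z U) = 0 := by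
      intro U
      have h1 := hrel U
      have hlgU : ∀ k, (lg (0 : MvPolynomial (Fin 3) ℂ) Z U).coeff k = 0 := by
        intro k; simp [lg]
      rw [hH0] at h1
      simp only [zt, pz, hdd, hlgU] at h1
      linear_combination -h1
    have hm0 : ∀ i, m i = 0 := by
      intro i
      by_contra hne
      have hU1m : ∑ i, m i * U1 i = 0 := (mul_eq_zero.mp (hprod U1)).resolve_right hU1
      obtain ⟨P, hP⟩ := (PKu_gB F Z).poly U1 (Pi.single i 1)
      have hP0 : P = 0 := by
        apply Polynomial.eq_zero_of_infinite_isRoot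
        refine Set.Infinite.mono ?_ (Set.Finite.infinite_compl (Set.finite_singleton (0 : ℂ)))
        intro t ht
        have ht0 : t ≠ 0 := ht
        show P.eval t = 0
        rw [hP]
        refine (mul_eq_zero.mp (hprod _)).resolve_left ?_
        have : ∑ j, m j * (U1 + t • (Pi.single i 1 : Fin 3 → ℂ)) j = (∑ j, m j * U1 j) + t * m i := by
          simp only [Pi.add_apply, Pi.smul_apply, mul_add, Finset.sum_add_distrib]
          congr 1
          rw [Finset.sum_eq_single i]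
          · simp [mul_comm]
          · intro b _ hb; simp [hb]
          · simp
        rw [this, hU1m, zero_add]
        exact mul_ne_zero ht0 hne
      have := hP 0
      rw [hP0, Polynomial.eval_zero, zero_smul, add_zero] at this
      exact hU1 this.symm
    apply hv0
    funext s
    rcases s with j | i
    · exact congrFun h0 j
    · exact hm0 i
  refine case_two hF hsm he (lin l) (fun U => ?_) ⟨U1, hU1⟩ (fun a => ic_out p hvz a) ?_
  · rw [lin_apply]
    exact hT U
  · intro U hU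
    have h2 := hrel U
    rw [hU, mul_zero, zero_add] at h2
    rw [lin_apply]
    exact h2

end Pool.Agent.Y944.CL
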